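import Pool.Agent.N190.Amp.Main
import Pool.Agent.N190.Lin.Main

/-!
# The conjecture A in one codimension and the conjecture B in the degrees up to `c`
-/

set_option autoImplicit false

open CategoryTheory AlgebraicGeometry Finset

universe u v

namespace Pool.Agent.N190.Cod

open Pool.Agent.H914 Pool.Agent.H447 Pool.Agent.W534 Pool.Agent.W537 Pool.Agent.TH720.LB VarClass
  Obj WeilCohomology Pool.Agent.X310.Gap Pool.Agent.X310 Pool.Agent.X310.Mom Pool.Agent.N190.Amp
  Pool.Agent.N190.Lin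

variable {k : Type u} [Field k] {𝒱 : VarClass k} {ops : CycleOps 𝒱}
  {W : WeilCohomology.{u, v} ops} {X V P : 𝒱.Obj} {D : X.Cycles} {E : V.Cycles} {h : P.Cycles}

/-- On `X` there is a divisor `D` with hard Lefschetz, and for all `r` with `1 ≤ r < dim X` there is
a linear section of dimension `r` for `D`. -/
def HasLinearSections (W : WeilCohomology.{u, v} ops) (X : 𝒱.Obj) : Prop :=
  ∃ D : X.Cycles, X.IsCyc 1 D ∧ HardLefschetz W X D ∧
    ∀ r, 1 ≤ r → r < X.dim → ∃ (Y : 𝒱.Obj) (i : Y ⟶ X), Y.dim = r ∧ IsLinearSection W D i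

lemma allAlg_line (hP : IsLine W P h) : AllAlgebraic W P := by
  have hd := hP.proj.to.div
  have hpow : ∀ s : ℕ, W.cl P h ^ s ∈ spanCycles W P s := fun s => pow_mem_span hd s
  have hgr : ∀ s : ℕ, W.cl P h ^ s ∈ W.gr P (2 * s) := fun s => H914.span_gr (hpow s)
  intro p
  constructor
  · intro x hx
    have key : ∀ y : W.H P, proj (W.isInternal P) (2 * p) y ∈ spanCycles W P p := by
      intro y
      have hy := hP.proj.to.span y
      induction hy using Submodule.span_induction with
      | mem y hy =>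
        obtain ⟨s, rfl⟩ := hy
        beta_reduce
        by_cases hs : s = p
        · subst hs
          rw [proj_same _ (hgr s)]
          exact hpow s
        · rw [proj_ne _ (hgr s) (by omega)]
          exact Submodule.zero_mem _
      | zero => rw [map_zero]; exact Submodule.zero_mem _
      | add a b _ _ ha hb => rw [map_add]; exact Submodule.add_mem _ ha hb
      | smul c a _ ha => rw [map_smul]; exact Submodule.smul_mem _ _ ha
    have := key x
    rwa [proj_same _ hx] at this
  · rw [eq_bot_iff]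
    intro x hx
    have key : ∀ y : W.H P, proj (W.isInternal P) (2 * p + 1) y = 0 := by
      intro y
      have hy := hP.proj.to.span y
      induction hy using Submodule.span_induction with
      | mem y hy =>
        obtain ⟨s, rfl⟩ := hy
        beta_reduce
        rw [proj_ne _ (hgr s) (by omega)]
      | zero => rw [map_zero]
      | add a b _ _ ha hb => rw [map_add, ha, hb, add_zero]
      | smul c a _ ha => rw [map_smul, ha, smul_zero]
    have := key x
    rwa [proj_same _ hx] at this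

lemma one_ne_line (hP : IsLine W P h) : (1 : W.H P) ≠ 0 := by
  intro h1
  have h2 := hP.proj.to.deg
  rw [← mul_one (W.cl P h ^ P.dim), h1, mul_zero, map_zero] at h2
  exact zero_ne_one h2

/-- the ranks of the product with the line -/
lemma rk_line (hP : IsLine W P h) (V : 𝒱.Obj) (p : ℤ) :
    rk W (P.prod V) (p + 1) = rk W V p + rk W V (p + 1) := by
  have hS := allAlg_line hP
  have h1 := rank_kunneth hS V p
  rw [hP.dim, Finset.sum_range_succ, Finset.sum_range_one, rank_zero hS (one_ne_line hP),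
    one_mul] at h1
  have h3 : cycleRank W P ((1 : ℕ) : ℤ) = 1 := by
    have := rank_top hS (one_ne_line hP)
    rwa [hP.dim] at this
  rw [h3, one_mul, Nat.cast_zero, zero_add, Nat.cast_one,
    show (1 : ℤ) + p = p + 1 by ring] at h1
  simp only [rk]
  rw [h1]
  push_cast
  ring

/-- one dimension less -/
lemma same_down (hP : IsLine W P h) (hHL : ∀ V : 𝒱.Obj, ∃ E, V.IsCyc 1 E ∧ HardLefschetz W V E)
    {m c : ℕ} (hcm : c + 2 ≤ m) (hs : SameRanks W (m + (c + 1)) (c + 1) m) :
    SameRanks W (m + c) c m ∧ SameRanks W (m - 1 + (c + 1)) (c + 1) (m - 1) := by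
  have key : ∀ V : 𝒱.Obj, V.dim = m + c → rk W V c = rk W V m ∧
      rk W V (c + 1) = rk W V ((m : ℤ) - 1) := by
    intro V hV
    obtain ⟨E, hE, hVE⟩ := hHL V
    have h0 := hs (P.prod V) (by rw [dim_prod, hP.dim, hV]; ring)
    have e1 := rk_line hP V c
    have e2 := rk_line hP V ((m : ℤ) - 1)
    rw [sub_add_cancel] at e2
    have e0 : rk W (P.prod V) ((c : ℤ) + 1) = rk W (P.prod V) m := by
      simp only [rk]
      have : ((c : ℤ) + 1) = ((c + 1 : ℕ) : ℤ) := by push_cast; ring
      rw [this, h0]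
    have l1 := rk_le hE hVE (p := (c : ℤ)) (by omega)
    have l2 := rk_le hE hVE (p := (c : ℤ) + 1) (by omega)
    rw [show (V.dim : ℤ) - c = m by omega] at l1
    rw [show (V.dim : ℤ) - (c + 1) = (m : ℤ) - 1 by omega] at l2
    constructor <;> linarith
  constructor
  · intro V hV
    have := (key V hV).1
    simp only [rk] at this
    exact_mod_cast this
  · intro V hV
    have := (key V (by omega)).2
    simp only [rk] at this
    rw [show ((c + 1 : ℕ) : ℤ) = (c : ℤ) + 1 by push_cast; ring,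
      show ((m - 1 : ℕ) : ℤ) = (m : ℤ) - 1 by omega]
    exact_mod_cast this

/-- smaller codimensions -/
lemma same_cod (hP : IsLine W P h) (hHL : ∀ V : 𝒱.Obj, ∃ E, V.IsCyc 1 E ∧ HardLefschetz W V E)
    {m : ℕ} : ∀ (c r : ℕ), r ≤ c → c < m → SameRanks W (m + c) c m → SameRanks W (m + r) r m := by
  intro c
  induction c with
  | zero =>
    intro r hr _ hs
    obtain rfl : r = 0 := by omega
    exact hs
  | succ c ih =>
    intro r hr hcm hs
    rcases Nat.lt_or_eq_of_le hr with h1 | rfl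
    · exact ih r (by omega) (by omega) (same_down hP hHL (by omega) hs).1
    · exact hs

/-- smaller dimensions -/
lemma same_dim (hP : IsLine W P h) (hHL : ∀ V : 𝒱.Obj, ∃ E, V.IsCyc 1 E ∧ HardLefschetz W V E)
    {c : ℕ} : ∀ (m n : ℕ), c + 1 ≤ n → n ≤ m → SameRanks W (m + (c + 1)) (c + 1) m →
      SameRanks W (n + (c + 1)) (c + 1) n := by
  intro m
  induction m with
  | zero => intro n h1 h2; omega
  | succ m ih =>
    intro n h1 h2 hs
    rcases Nat.lt_or_eq_of_le h2 with h3 | rfl
    · have := (same_down hP hHL (by omega) hs).2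
      rw [Nat.add_sub_cancel] at this
      exact ih n h1 (by omega) this
    · exact hs

/-- the conjecture B in the degrees up to `d` does not depend on the divisor -/
lemma bUpTo_indep {D' : X.Cycles} (hD : X.IsCyc 1 D) (hHL : HardLefschetz W X D)
    (hD' : X.IsCyc 1 D') (hHL' : HardLefschetz W X D') {d : ℕ} (hd : d ≤ X.dim)
    (hB : BUpTo W X D d) : BUpTo W X D' d := by
  have hOA := rop_opAlg (W := W) (X := X)
  apply bUpTo_of_kinv hD' hHL' hd
  intro i hi
  obtain ⟨z, hz, hz1, hz2⟩ := hB i hi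
  have hzK : W.corr (W.cl _ z) ∈ KS (ROp W X) (-((X.dim - i : ℕ) : ℤ)) :=
    mem_KS_iff.2 (KOp.gen (p := i) (by omega) hz)
  have hinj : ∀ a ∈ W.gr X (X.dim + (X.dim - i)), W.corr (W.cl _ z) a = 0 → a = 0 := by
    intro a ha h0
    have := hz2 a (by rwa [show 2 * X.dim - i = X.dim + (X.dim - i) by omega])
    rw [cycOp, h0, map_zero] at this
    exact this.symm
  obtain ⟨θ, hθ, hθi⟩ := hOA.exists_theta_of_inj (n := X.dim)
    (L := LinearMap.mulLeft W.K (W.cl X D')) (Submodule.subset_span (rop_mulLeft hD')) hHL'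
    (c := X.dim - i) (by omega) hzK hinj
  exact ⟨θ, mem_KS_iff.1 hθ, fun a ha => hθi a (by rwa [show X.dim - (X.dim - i) = i by omega])⟩

/-- **The conjecture A in one codimension implies the conjecture B in the lower degrees.** -/
theorem bUpTo_of_same (hP : IsLine W P h) (hsec : ∀ X : 𝒱.Obj, HasLinearSections W X) {m c : ℕ}
    (hcm : c < m) (hs : SameRanks W (m + c) c m) (X : 𝒱.Obj) (D : X.Cycles)
    (hD : X.IsCyc 1 D) (hHLX : HardLefschetz W X D) (hX : X.dim ≤ m) :
    BUpTo W X D (min c X.dim) := by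
  have hHL : ∀ V : 𝒱.Obj, ∃ E, V.IsCyc 1 E ∧ HardLefschetz W V E := fun V => by
    obtain ⟨E, h1, h2, -⟩ := hsec V
    exact ⟨E, h1, h2⟩
  obtain ⟨D₀, hD₀, hHL₀, hsecX⟩ := hsec X
  refine bUpTo_indep hD₀ hHL₀ hD hHLX (min_le_right _ _) ?_
  -- the sections
  have hsec' : ∀ r : ℕ, ∃ (Y : 𝒱.Obj) (i : Y ⟶ X), r ∈ Set.Icc 1 (min c X.dim) →
      Y.dim = r ∧ IsLinearSection W D₀ i := by
    intro r
    by_cases hr : 1 ≤ r ∧ r < X.dim
    · obtain ⟨Y, i, h1, h2⟩ := hsecX r hr.1 hr.2
      exact ⟨Y, i, fun _ => ⟨h1, h2⟩⟩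
    · refine ⟨X, 𝟙 X, fun hr' => ?_⟩
      have h1 : 1 ≤ r := hr'.1
      have h2 : r ≤ min c X.dim := hr'.2
      refine ⟨by omega, le_rfl, ?_, ?_⟩
      · rw [Nat.sub_self, pow_zero, W.cl_push, W.cl_fund, W.push_id]
      · intro q _ b hb
        exact ⟨b, hb, W.map_id X b⟩
  choose Y i hYi using hsec'
  apply bUpTo_of_ranks hD₀ (min_le_right _ _) i (fun r hr => (hYi r hr).1) hHL₀
    (fun r hr => (hYi r hr).2)
  intro r hr
  right
  have hdim : (X.prod (Y r)).dim = X.dim + r := by rw [dim_prod, (hYi r hr).1]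
  have hr1 : 1 ≤ r := hr.1
  have hr2 : r ≤ min c X.dim := hr.2
  obtain ⟨q, rfl⟩ : ∃ q, r = q + 1 := ⟨r - 1, by omega⟩
  have h1 := same_cod hP hHL c (q + 1) (by omega) hcm hs
  exact same_dim hP hHL m X.dim (by omega) hX h1 _ hdim

/-- The conjecture B in the degree `2 c` implies the conjecture A in the codimension `c`. -/
theorem aIn_of_inverts (hE : V.IsCyc 1 E) (hV : HardLefschetz W V E) {c : ℕ} (hc : 2 * c ≤ V.dim)
    (hB : ∃ z, InvertsLefschetz W V E (2 * c) z) :
    LefschetzAIn W V E c ∧ cycleRank W V c = cycleRank W V (V.dim - c : ℕ) := by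
  have hA : LefschetzAIn W V E c := by
    obtain ⟨θ, hθ, -, hθ2⟩ := hB
    intro z hz
    refine ⟨ops.push (snd V V) (ops.mul (ops.pull (fst V V) z) θ), ?_, ?_⟩
    · refine ops.push_mem _ (ops.mul_mem (ops.pull_mem _ hz) hθ) ?_
      rw [dim_prod]
      omega
    · have h1 : W.cl V (ops.push (snd V V) (ops.mul (ops.pull (fst V V) z) θ)) =
          W.corr (W.cl _ θ) (W.cl V z) := by
        rw [W.cl_push, W.cl_mul, W.cl_pull, corr_apply, W.even_comm (W.map_mem _ (W.cl_mem hz))]
      rw [cl_divPow, h1, LinearMap.pow_mulLeft]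
      refine hθ2 (W.cl V z) ?_
      have := W.cl_mem hz
      rwa [show 2 * (V.dim - c) = 2 * V.dim - 2 * c by omega] at this
  exact ⟨hA, rank_of_AIn hE hV hc hA⟩

/-- **The conjecture A for all varieties from infinitely many codimensions.** -/
theorem cod_tfae (hP : IsLine W P h) (hsec : ∀ X : 𝒱.Obj, HasLinearSections W X) {T : Set ℕ}
    (hT : T.Infinite) (μ : ℕ → ℕ) (hμ : ∀ c ∈ T, c < μ c) :
    List.TFAE [
      ∀ (V : 𝒱.Obj) (E : V.Cycles), V.IsCyc 1 E → HardLefschetz W V E → LefschetzA W V E,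
      ∀ c ∈ T, SameRanks W (μ c + c) c (μ c),
      ∀ (V : 𝒱.Obj) (E : V.Cycles), V.IsCyc 1 E → HardLefschetz W V E → LefschetzB W V E] := by
  tfae_have 1 → 2 := by
    intro hA c hc V hV
    obtain ⟨E, hE, hHL, -⟩ := hsec V
    exact rank_of_A hE hHL (hA V E hE hHL) (by omega)
  tfae_have 2 → 3 := by
    intro h V E hE hV
    obtain ⟨c, hc, hVc⟩ := hT.exists_gt V.dim
    have h1 := bUpTo_of_same hP hsec (hμ c hc) (h c hc) V E hE hV (by have := hμ c hc; omega)
    rw [min_eq_right hVc.le] at h1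
    apply lefschetzB_of_inj hE hV
    intro s hs
    obtain ⟨z, hz, hz1, hz2⟩ := h1 (V.dim - s) (by omega)
    refine ⟨_, KOp.gen (p := V.dim - s) (by omega) hz, ?_⟩
    intro a ha h0
    have := hz2 a (by rwa [show 2 * V.dim - (V.dim - s) = V.dim + s by omega])
    rw [cycOp, h0, map_zero] at this
    exact this.symm
  tfae_have 3 → 1 := fun h V E hE hV => lefschetzA_of_B hE hV (h V E hE hV)
  tfae_finish

end Pool.Agent.N190.Cod
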